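import Mathlib
import Pool.Agent.Lib.MP_dc9025_an.Transfer

set_option autoImplicit false

namespace Pool.Agent.Results.MP_dc9025_an.TwoDiscs

open Metric Set Pool.Agent.Lib.MP_dc9025_an

/-- `f`, restricted to `[0, ∞)`, is a positive reaction: it is `C^{1,γ}` on `[0, ∞)` for some
`γ ∈ (0, 1]`, `f(0) = f(1) = 0`, `f < 0` on `(1, ∞)` and `f'(1) < 0`, `f > 0` on `(0, 1)` and
`f'(0⁺) > 0`. -/
structure IsPositiveReaction (f : ℝ → ℝ) : Prop where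
  contDiffOn : ContDiffOn ℝ 1 f (Ici 0)
  holder : ∃ γ ∈ Ioc (0 : ℝ) 1, ∃ C : ℝ, ∀ s ∈ Ici (0 : ℝ), ∀ t ∈ Ici (0 : ℝ),
    |derivWithin f (Ici 0) s - derivWithin f (Ici 0) t| ≤ C * |s - t| ^ γ
  map_zero : f 0 = 0
  map_one : f 1 = 0
  neg : ∀ s, 1 < s → f s < 0
  deriv_one : derivWithin f (Ici 0) 1 < 0
  pos : ∀ s ∈ Ioo (0 : ℝ) 1, 0 < f s
  deriv_zero : 0 < derivWithin f (Ici 0) 0

theorem isPositiveReaction_scaled {κ : ℝ} (hκ : 0 < κ) :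
    IsPositiveReaction (fun s => κ ^ 2 * fR s) := by
  have hC : ContDiff ℝ 1 (fun s => κ ^ 2 * fR s) :=
    contDiff_const.mul (contDiff_fR (n := 1))
  have hfd : Differentiable ℝ fR := (contDiff_fR (n := 1)).differentiable (by norm_num)
  have hd : ∀ s ∈ Ici (0 : ℝ), derivWithin (fun s => κ ^ 2 * fR s) (Ici 0) s =
      κ ^ 2 * deriv fR s := by
    intro s hs
    have h1 : HasDerivAt (fun s => κ ^ 2 * fR s) (κ ^ 2 * deriv fR s) s :=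
      (hfd s).hasDerivAt.const_mul (κ ^ 2)
    exact h1.hasDerivWithinAt.derivWithin (uniqueDiffOn_Ici 0 s hs)
  obtain ⟨C, hC0, hCL⟩ := lip_deriv_fR
  refine ⟨hC.contDiffOn, ⟨1, ⟨one_pos, le_rfl⟩, κ ^ 2 * C, ?_⟩, ?_, ?_, ?_, ?_, ?_, ?_⟩
  · intro s hs t ht
    rw [hd s hs, hd t ht, ← mul_sub, abs_mul, abs_of_nonneg (sq_nonneg κ), Real.rpow_one, mul_assoc]
    exact mul_le_mul_of_nonneg_left (hCL s t) (sq_nonneg κ)
  · simp only [fR_zero, mul_zero]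
  · simp only [fR_one, mul_zero]
  · intro s hs
    have := fR_neg hs
    have h2 : 0 < κ ^ 2 := by positivity
    exact mul_neg_of_pos_of_neg h2 this
  · rw [hd 1 (by simp), deriv_fR_one]
    have h2 : 0 < κ ^ 2 := by positivity
    linarith
  · intro s hs
    have := fR_pos hs.1 hs.2
    positivity
  · rw [hd 0 (by simp), deriv_fR_zero]
    positivity

theorem result : ∃ f : ℝ → ℝ, ∀ κ : ℝ, 0 < κ →
    IsPositiveReaction (fun s => κ ^ 2 * f s) ∧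
    ∀ (p₁ p₂ : EuclideanSpace ℝ (Fin 2)) (r₁ r₂ : ℝ), 1000 ≤ κ * r₁ → 1000 ≤ κ * r₂ →
      2 ≤ κ * (dist p₁ p₂ - r₁ - r₂) → κ * (dist p₁ p₂ - r₁ - r₂) ≤ 101 / 50 →
      ∃ u v : EuclideanSpace ℝ (Fin 2) → ℝ,
        IsPosBddSol (fun s => κ ^ 2 * f s) (closedBall p₁ r₁ ∪ closedBall p₂ r₂)ᶜ u ∧
        IsPosBddSol (fun s => κ ^ 2 * f s) (closedBall p₁ r₁ ∪ closedBall p₂ r₂)ᶜ v ∧
        ∃ x ∈ (closedBall p₁ r₁ ∪ closedBall p₂ r₂)ᶜ, u x ≠ v x :=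
  ⟨fR, fun κ hκ => ⟨isPositiveReaction_scaled hκ, fun p₁ p₂ r₁ r₂ h₁ h₂ hd hd' =>
    main κ hκ p₁ p₂ r₁ r₂ h₁ h₂ hd hd'⟩⟩

end Pool.Agent.Results.MP_dc9025_an.TwoDiscs
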